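import Mathlib

/-!
# Hereditary classes with wild Specker functions

For every finite relational vocabulary with a symbol of arity at least two and every prime `p` there
is a hereditary class of finite structures whose Specker function modulo `p` satisfies no linear
recurrence.
-/

namespace Pool.Agent.X225.Specker

open FirstOrder FirstOrder.Language

/-- a class of `L`-structures -/
abbrev StrClass (L : FirstOrder.Language.{0, 0}) : Type 1 := ∀ A : Type, L.Structure A → Prop

/-- `C` is a substructure-closed class of finite structures: all members are finite, and every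
structure that embeds in a member (is isomorphic to an induced substructure of a member) is a
member. -/
structure SubstructureClosed {L : FirstOrder.Language.{0, 0}} (C : StrClass L) : Prop where
  finite : ∀ (A : Type) [SA : L.Structure A], C A SA → Finite A
  closed : ∀ (A B : Type) [SA : L.Structure A] [SB : L.Structure B],
    Nonempty (A ↪[L] B) → C B SB → C A SA

/-- the Specker function: the number of structures in `C` with universe `Fin n` -/
noncomputable def Sp {L : FirstOrder.Language.{0, 0}} (C : StrClass L) (n : ℕ) : ℕ :=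
  Nat.card {S : L.Structure (Fin n) // C (Fin n) S}

/-- the sequence `s` satisfies a linear recurrence modulo `m` from some point on -/
def RecurrentMod (m : ℕ) (s : ℕ → ℕ) : Prop :=
  ∃ r p : ℕ, 1 ≤ r ∧ 1 ≤ p ∧ ∃ α : ℕ → ℤ, ∀ n, r ≤ n →
    (s (n + p) : ℤ) ≡ ∑ i ∈ Finset.range p, α i * (s (n + i) : ℤ) [ZMOD m]

/-! ### Countably many recurrent sequences -/

theorem countable_recurrent (p : ℕ) [Fact p.Prime] :
    {t : ℕ → ZMod p | ∃ r q : ℕ, ∃ α : Fin q → ZMod p, ∀ n, r ≤ n →
      t (n + q) = ∑ i : Fin q, α i * t (n + i)}.Countable := by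
  have h : {t : ℕ → ZMod p | ∃ r q : ℕ, ∃ α : Fin q → ZMod p, ∀ n, r ≤ n →
      t (n + q) = ∑ i : Fin q, α i * t (n + i)} =
      ⋃ r : ℕ, ⋃ q : ℕ, ⋃ α : Fin q → ZMod p, {t : ℕ → ZMod p | ∀ n, r ≤ n →
        t (n + q) = ∑ i : Fin q, α i * t (n + i)} := by
    ext t
    simp
  rw [h]
  refine Set.countable_iUnion fun r => Set.countable_iUnion fun q => Set.countable_iUnion fun α =>
    Set.Finite.countable ?_
  have hinj : Set.InjOn (fun (t : ℕ → ZMod p) (i : Fin (r + q)) => t i)
      {t : ℕ → ZMod p | ∀ n, r ≤ n → t (n + q) = ∑ i : Fin q, α i * t (n + i)} := by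
    intro t ht t' ht' htt
    funext n
    induction n using Nat.strong_induction_on with
    | _ n ih =>
      by_cases hn : n < r + q
      · exact congrFun htt ⟨n, hn⟩
      · have h1 := ht (n - q) (by omega)
        have h2 := ht' (n - q) (by omega)
        rw [Nat.sub_add_cancel (by omega)] at h1 h2
        rw [h1, h2]
        refine Finset.sum_congr rfl fun i _ => ?_
        rw [ih _ (by have := i.2; omega)]
  exact Set.Finite.of_finite_image (Set.toFinite _) hinj

theorem mem_of_recurrentMod (p : ℕ) [Fact p.Prime] (s : ℕ → ℕ) (h : RecurrentMod p s) :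
    (fun n => (s n : ZMod p)) ∈ {t : ℕ → ZMod p | ∃ r q : ℕ, ∃ α : Fin q → ZMod p, ∀ n, r ≤ n →
      t (n + q) = ∑ i : Fin q, α i * t (n + i)} := by
  obtain ⟨r, q, -, -, α, hα⟩ := h
  refine ⟨r, q, fun i => (α i : ZMod p), fun n hn => ?_⟩
  have h1 := (ZMod.intCast_eq_intCast_iff _ _ p).mpr (hα n hn)
  push_cast at h1
  change (s (n + q) : ZMod p) = ∑ i : Fin q, (α i : ZMod p) * (s (n + i) : ZMod p)
  rw [h1, Finset.sum_range]

/-! ### The antichain -/

/-- the universe of the `k`-th structure: `k + c` levels, the `i`-th one with `p ^ i` points -/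
abbrev U (p c k : ℕ) : Type := Σ i : Fin (k + c), Fin (p ^ (i : ℕ))

/-- the binary relation of the `k`-th structure: all pairs from a level to the next one, and loops on
the first and the last level -/
def E {p k : ℕ} (x y : U p 2 k) : Prop :=
  (y.1 : ℕ) = x.1 + 1 ∨ (x = y ∧ ((x.1 : ℕ) = 0 ∨ (x.1 : ℕ) = k + 1))

theorem E_injective_eq {p k l : ℕ} (hp : 0 < p) (f : U p 2 k → U p 2 l)
    (hf : Function.Injective f) (h : ∀ x y, E (f x) (f y) ↔ E x y) : k = l := by
  -- a point of each level
  let x : ∀ i : ℕ, i < k + 2 → U p 2 k := fun i hi => ⟨⟨i, hi⟩, ⟨0, by positivity⟩⟩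
  have hloop : ∀ {m : ℕ} (y : U p 2 m), E y y ↔ ((y.1 : ℕ) = 0 ∨ (y.1 : ℕ) = m + 1) := by
    intro m y
    unfold E
    constructor
    · rintro (h1 | ⟨-, h1⟩)
      · omega
      · exact h1
    · intro h1
      exact Or.inr ⟨rfl, h1⟩
  have hstep : ∀ i (hi : i + 1 < k + 2),
      ((f (x (i + 1) hi)).1 : ℕ) = (f (x i (by omega))).1 + 1 := by
    intro i hi
    have h1 : E (x i (by omega)) (x (i + 1) hi) := Or.inl rfl
    rcases (h _ _).mpr h1 with h2 | ⟨h2, -⟩
    · exact h2
    · have h3 := congrArg (fun z : U p 2 k => (z.1 : ℕ)) (hf h2)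
      simp only [x] at h3
      omega
  have h0 : ((f (x 0 (by omega))).1 : ℕ) = 0 := by
    have h1 : E (x 0 (by omega)) (x 0 (by omega)) := (hloop _).mpr (Or.inl rfl)
    rcases (hloop _).mp ((h _ _).mpr h1) with h2 | h2
    · exact h2
    · have h3 := hstep 0 (by omega)
      have h4 := (f (x 1 (by omega))).1.2
      omega
  have hlev : ∀ i (hi : i < k + 2), ((f (x i hi)).1 : ℕ) = i := by
    intro i
    induction i with
    | zero => exact fun _ => h0
    | succ i ih =>
      intro hi
      rw [hstep i hi, ih]
  have hlast : E (x (k + 1) (by omega)) (x (k + 1) (by omega)) := (hloop _).mpr (Or.inr rfl)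
  rcases (hloop _).mp ((h _ _).mpr hlast) with h2 | h2
  · rw [hlev] at h2
    omega
  · rw [hlev] at h2
    omega

theorem E_inv {p k : ℕ} (h : Equiv.Perm (U p 2 k)) (hh : ∀ v, (h v).1 = v.1) (a b : U p 2 k) :
    E (h a) (h b) ↔ E a b := by
  unfold E
  rw [hh, hh]
  simp only [EmbeddingLike.apply_eq_iff_eq]

/-- adjacency in the cycle with `k + 5` points -/
def cyc {k : ℕ} (i j : Fin (k + 5)) : Prop := j = i + 1 ∨ i = j + 1

/-- the blown up cycle: the levels are independent sets, two levels are completely joined if their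
indices are neighbours on the cycle of length `k + 5` -/
def CE {p k : ℕ} (x y : U p 5 k) : Prop := cyc x.1 y.1

theorem CE_inv {p k : ℕ} (h : Equiv.Perm (U p 5 k)) (hh : ∀ v, (h v).1 = v.1) (a b : U p 5 k) :
    CE (h a) (h b) ↔ CE a b := by
  unfold CE
  rw [hh, hh]

theorem two_ne {k : ℕ} : (1 : Fin (k + 5)) + 1 ≠ 0 := by
  intro h
  have := congrArg Fin.val h
  simp [Fin.val_add] at this
  rw [Nat.mod_eq_of_lt (by omega)] at this
  omega

theorem four_ne {k : ℕ} : (1 : Fin (k + 5)) + 1 + 1 + 1 ≠ 0 := by
  intro h
  have := congrArg Fin.val h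
  simp [Fin.val_add] at this
  rw [Nat.mod_eq_of_lt (by omega)] at this
  omega

open Fin.CommRing in
theorem cyc_eq {k l : ℕ} (g : Fin (k + 5) → Fin (l + 5)) (h : ∀ i j, cyc (g i) (g j) ↔ cyc i j) :
    k = l := by
  have hinj : Function.Injective g := by
    intro i j hij
    have key : ∀ m, cyc i m ↔ cyc j m := fun m => by rw [← h i m, hij, h j m]
    by_contra hne
    have h1 := (key (i + 1)).mp (Or.inl rfl)
    have h2 := (key (i - 1)).mp (Or.inr (sub_add_cancel i 1).symm)
    have h3 : j = i + 1 + 1 := by
      rcases h1 with h1 | h1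
      · exact absurd (add_right_cancel h1) hne
      · exact h1
    have h4 : i - 1 = j + 1 := by
      rcases h2 with h2 | h2
      · exact h2
      · rw [sub_add_cancel] at h2
        exact absurd h2.symm hne
    apply four_ne (k := k)
    rw [h3] at h4
    have h5 : i = i + (1 + 1 + 1 + 1) := by
      rw [sub_eq_iff_eq_add] at h4
      calc i = i + 1 + 1 + 1 + 1 := h4
        _ = i + (1 + 1 + 1 + 1) := by ring
    exact left_eq_add.mp h5
  have hne2 : ∀ i : Fin (k + 5), i + 1 ≠ i - 1 := by
    intro i hi
    apply two_ne (k := k)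
    rw [eq_sub_iff_add_eq, add_assoc] at hi
    exact left_eq_add.mp hi.symm
  have hstep : ∀ i, ∃ j, g j = g i + 1 := by
    intro i
    have h1 : cyc (g i) (g (i + 1)) := (h _ _).mpr (Or.inl rfl)
    have h2 : cyc (g i) (g (i - 1)) := (h _ _).mpr (Or.inr (sub_add_cancel i 1).symm)
    rcases h1 with h1 | h1
    · exact ⟨_, h1⟩
    · rcases h2 with h2 | h2
      · exact ⟨_, h2⟩
      · exact absurd (hinj (add_right_cancel (h1.symm.trans h2))) (hne2 i)
  have hsurj : Function.Surjective g := by
    have key : ∀ t : ℕ, ∃ j, g j = g 0 + (t : Fin (l + 5)) := by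
      intro t
      induction t with
      | zero => exact ⟨0, by simp⟩
      | succ t ih =>
        obtain ⟨j, hj⟩ := ih
        obtain ⟨j', hj'⟩ := hstep j
        refine ⟨j', ?_⟩
        rw [hj', hj]
        push_cast
        ring
    intro y
    obtain ⟨j, hj⟩ := key (y - g 0).val
    refine ⟨j, ?_⟩
    rw [hj, Fin.cast_val_eq_self]
    ring
  have := Fintype.card_of_bijective ⟨hinj, hsurj⟩
  rw [Fintype.card_fin, Fintype.card_fin] at this
  omega

theorem CE_injective_eq {p k l : ℕ} (hp : 0 < p) (f : U p 5 k → U p 5 l)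
    (h : ∀ x y, CE (f x) (f y) ↔ CE x y) : k = l :=
  cyc_eq (fun i => (f ⟨i, ⟨0, by positivity⟩⟩).1) fun i j => h ⟨i, _⟩ ⟨j, _⟩

/-! ### Valuations -/

/-- the number of points of the first `K` levels -/
def cnt (p K : ℕ) : ℕ := ∑ i ∈ Finset.range K, p ^ i

theorem cnt_succ (p K : ℕ) : cnt p (K + 1) = p * cnt p K + 1 := by
  unfold cnt
  rw [Finset.sum_range_succ', Finset.mul_sum]
  simp [pow_succ, mul_comm]

theorem val_cnt (p K : ℕ) [hp : Fact p.Prime] :
    padicValNat p (cnt p K).factorial =
      ∑ i ∈ Finset.range K, padicValNat p (p ^ i).factorial := by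
  induction K with
  | zero => simp [cnt]
  | succ K ih =>
    rw [cnt_succ, padicValNat_factorial_mul_add _ hp.out.one_lt, padicValNat_factorial_mul, ih,
      Finset.sum_range_succ']
    have h1 : ∀ i, padicValNat p (p ^ (i + 1)).factorial =
        padicValNat p (p ^ i).factorial + p ^ i := by
      intro i
      rw [pow_succ, mul_comm, padicValNat_factorial_mul]
    rw [Finset.sum_congr rfl fun i _ => h1 i, Finset.sum_add_distrib]
    unfold cnt
    simp

theorem not_dvd_factorial (p K : ℕ) [hp : Fact p.Prime] :
    ¬ p * ∏ i ∈ Finset.range K, (p ^ i).factorial ∣ (cnt p K).factorial := by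
  intro h
  have hne : ∏ i ∈ Finset.range K, (p ^ i).factorial ≠ 0 :=
    Finset.prod_ne_zero_iff.mpr fun i _ => Nat.factorial_ne_zero _
  have h1 := (padicValNat_dvd_iff_le (p := p) (Nat.factorial_ne_zero (cnt p K))
    (n := padicValNat p (p * ∏ i ∈ Finset.range K, (p ^ i).factorial))).mp
    (pow_padicValNat_dvd.trans h)
  rw [padicValNat.mul hp.out.ne_zero hne, padicValNat_self, val_cnt] at h1
  have h2 : padicValNat p (∏ i ∈ Finset.range K, (p ^ i).factorial) =
      ∑ i ∈ Finset.range K, padicValNat p (p ^ i).factorial := by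
    clear h h1 hne
    induction K with
    | zero => simp
    | succ K ih =>
      rw [Finset.prod_range_succ, padicValNat.mul (Finset.prod_ne_zero_iff.mpr fun i _ =>
        Nat.factorial_ne_zero _) (Nat.factorial_ne_zero _), ih, Finset.sum_range_succ]
  omega

theorem card_U (p c k : ℕ) : Fintype.card (U p c k) = cnt p (k + c) := by
  rw [Fintype.card_sigma]
  simp only [Fintype.card_fin]
  unfold cnt
  rw [Finset.sum_range]

theorem cnt_strictMono (p : ℕ) (hp : 0 < p) : StrictMono (cnt p) := by
  apply strictMono_nat_of_lt_succ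
  intro K
  unfold cnt
  rw [Finset.sum_range_succ]
  have : 0 < p ^ K := by positivity
  omega

/-! ### The structures -/

section Main

variable {L : FirstOrder.Language.{0, 0}} [hrel : L.IsRelational]

/-- the structure in which `R0` holds exactly for the tuples `(a, b, …, b)` with `E a b`, and all
other relations are empty -/
@[reducible] def mkStr {r : ℕ} (R0 : L.Relations (r + 2)) {A : Type} (E : A → A → Prop) :
    L.Structure A where
  funMap := fun {_} f _ => (hrel _).elim f
  RelMap := fun {n} R x => (⟨n, R⟩ : Σ n, L.Relations n) = ⟨r + 2, R0⟩ ∧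
    ∃ a b : A, E a b ∧ ∀ i : Fin n, x i = if (i : ℕ) = 0 then a else b

/-- the tuple `(a, b, …, b)` -/
def pair {r : ℕ} {A : Type} (a b : A) : Fin (r + 2) → A := fun i => if (i : ℕ) = 0 then a else b

theorem relMap_pair {r : ℕ} (R0 : L.Relations (r + 2)) {A : Type} (E : A → A → Prop) (a b : A) :
    (mkStr R0 E).RelMap R0 (pair a b) ↔ E a b := by
  constructor
  · rintro ⟨-, a', b', hE, h⟩
    have h0 : a = a' := h ⟨0, by omega⟩
    have h1 : b = b' := h ⟨1, by omega⟩
    rw [h0, h1]
    exact hE
  · intro h
    exact ⟨rfl, a, b, h, fun i => rfl⟩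

/-- embeddings preserve the binary relation -/
theorem emb_rel {r : ℕ} (R0 : L.Relations (r + 2)) {A B : Type} (E : A → A → Prop)
    (E' : B → B → Prop)
    (f : @FirstOrder.Language.Embedding L A B (mkStr R0 E) (mkStr R0 E')) (x y : A) :
    E' (@FirstOrder.Language.Embedding.toEmbedding L A B (mkStr R0 E) (mkStr R0 E') f x)
      (@FirstOrder.Language.Embedding.toEmbedding L A B (mkStr R0 E) (mkStr R0 E') f y) ↔
      E x y := by
  let _i1 := mkStr R0 E
  let _i2 := mkStr R0 E'
  rw [← relMap_pair R0 E, ← relMap_pair R0 E']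
  have h1 := f.map_rel R0 (pair x y)
  have h2 : ⇑f ∘ (pair x y : Fin (r + 2) → A) = pair (f x) (f y) := by
    funext i
    unfold pair
    simp only [Function.comp_apply]
    split_ifs <;> rfl
  rw [h2] at h1
  exact h1

/-- the data of the construction: a family of binary relations on the sets `U p c k`, invariant under
the level preserving permutations, pairwise not embeddable in each other, and an ambient class
containing all the corresponding structures -/
structure Family (L : FirstOrder.Language.{0, 0}) [hrel : L.IsRelational] (p : ℕ) where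
  c : ℕ
  r : ℕ
  R0 : L.Relations (r + 2)
  E : ∀ k, U p c k → U p c k → Prop
  inv : ∀ k (h : Equiv.Perm (U p c k)), (∀ v, (h v).1 = v.1) → ∀ a b, E k (h a) (h b) ↔ E k a b
  anti : ∀ k l (f : U p c k → U p c l), Function.Injective f →
    (∀ x y, E l (f x) (f y) ↔ E k x y) → k = l
  G : StrClass L
  closed : SubstructureClosed G
  mem : ∀ k, G (U p c k) (mkStr R0 (E k))

variable {p : ℕ} (F : Family L p)

/-- the `k`-th structure -/
@[reducible] def strU (k : ℕ) : L.Structure (U p F.c k) := mkStr F.R0 (F.E k)

theorem emb_eq {k l : ℕ}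
    (h : Nonempty (@FirstOrder.Language.Embedding L (U p F.c k) (U p F.c l) (strU F k)
      (strU F l))) : k = l := by
  obtain ⟨f⟩ := h
  let _i1 := strU F k
  let _i2 := strU F l
  exact F.anti k l f f.injective fun x y => emb_rel F.R0 (F.E k) (F.E l) f x y

/-- the class of all finite structures in the ambient class in which no structure with index in `S`
embeds -/
def cls (S : Set ℕ) : StrClass L := fun A SA =>
  F.G A SA ∧ ∀ k ∈ S, ¬ Nonempty (@FirstOrder.Language.Embedding L (U p F.c k) A (strU F k) SA)

theorem cls_closed (S : Set ℕ) : SubstructureClosed (cls F S) where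
  finite := fun A _ h => F.closed.finite A h.1
  closed := by
    intro A B SA SB hAB hB
    obtain ⟨hG, h⟩ := hB
    refine ⟨F.closed.closed A B hAB hG, fun k hk => ?_⟩
    obtain ⟨e⟩ := hAB
    rintro ⟨f⟩
    let _i1 := strU F k
    exact h k hk ⟨e.comp f⟩

/-! ### The labelled copies -/

/-- the action of a permutation on structures -/
@[reducible] def permAction (A : Type) : MulAction (Equiv.Perm A) (L.Structure A) where
  smul g S := @Equiv.inducedStructure L A A S g
  one_smul S := by
    refine Structure.ext (funext fun n => funext fun f => funext fun x => ?_)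
      (funext fun n => funext fun R => funext fun x => ?_)
    · rfl
    · rfl
  mul_smul g h S := by
    refine Structure.ext (funext fun n => funext fun f => funext fun x => ?_)
      (funext fun n => funext fun R => funext fun x => ?_)
    · rfl
    · rfl

theorem finite_structure [hfin : Finite (Σ n, L.Relations n)] (A : Type) [Finite A] :
    Finite (L.Structure A) := by
  let F : L.Structure A → ((q : Σ n, L.Relations n) → Set (Fin q.1 → A)) :=
    fun S q => {x | S.RelMap q.2 x}
  refine Finite.of_injective F ?_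
  intro S S' h
  refine Structure.ext (funext fun n => funext fun f => (hrel n).elim f)
    (funext fun n => funext fun R => funext fun x => ?_)
  have h1 := congrFun h ⟨n, R⟩
  have h2 : x ∈ F S ⟨n, R⟩ ↔ x ∈ F S' ⟨n, R⟩ := by rw [h1]
  exact propext h2

/-- the set of labelled copies of the `k`-th structure on `Fin n` -/
def copies (k n : ℕ) : Set (L.Structure (Fin n)) :=
  {S | Nonempty (@FirstOrder.Language.Embedding L (U p F.c k) (Fin n) (strU F k) S)}

theorem not_dvd_copies [hfin : Finite (Σ n, L.Relations n)] (k : ℕ) [hp : Fact p.Prime] :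
    ¬ p ∣ Nat.card (copies F k (cnt p (k + F.c))) := by
  classical
  set n := cnt p (k + F.c) with hn
  let e : U p F.c k ≃ Fin n := Fintype.equivFinOfCardEq (by rw [card_U])
  let _i := strU F k
  let S0 : L.Structure (Fin n) := Equiv.inducedStructure e
  let _act : MulAction (Equiv.Perm (Fin n)) (L.Structure (Fin n)) := permAction (Fin n)
  -- the copies form an orbit
  have horb : copies F k n = MulAction.orbit (Equiv.Perm (Fin n)) S0 := by
    ext S
    constructor
    · rintro ⟨f⟩
      have hbij : Function.Bijective f := by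
        rw [Fintype.bijective_iff_injective_and_card]
        exact ⟨f.injective, by rw [card_U, Fintype.card_fin]⟩
      let f' : U p F.c k ≃ Fin n := Equiv.ofBijective f hbij
      refine ⟨e.symm.trans f', ?_⟩
      change @Equiv.inducedStructure L _ _ S0 (e.symm.trans f') = S
      refine Structure.ext (funext fun n => funext fun f => (hrel n).elim f)
        (funext fun n => funext fun R => funext fun x => ?_)
      change Structure.RelMap R (⇑e.symm ∘ (⇑(e.symm.trans f').symm ∘ x)) = S.RelMap R x
      have h1 : ⇑e.symm ∘ (⇑(e.symm.trans f').symm ∘ x) = ⇑f'.symm ∘ x := by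
        funext i
        simp
      rw [h1]
      have h2 := f.map_rel R (⇑f'.symm ∘ x)
      have h3 : ⇑f ∘ (⇑f'.symm ∘ x) = x := by
        funext i
        exact f'.apply_symm_apply (x i)
      rw [h3] at h2
      exact propext h2.symm
    · rintro ⟨g, rfl⟩
      change Nonempty (@FirstOrder.Language.Embedding L (U p F.c k) (Fin n) (strU F k)
        (@Equiv.inducedStructure L _ _ S0 g))
      exact ⟨@Embedding.comp L _ _ (strU F k) S0 _ (@Equiv.inducedStructure L _ _ S0 g)
        (@FirstOrder.Language.Equiv.toEmbedding L _ _ S0 (@Equiv.inducedStructure L _ _ S0 g)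
          (@Equiv.inducedStructureEquiv L _ _ S0 g))
        (@FirstOrder.Language.Equiv.toEmbedding L _ _ (strU F k) S0
          (@Equiv.inducedStructureEquiv L _ _ (strU F k) e))⟩
  -- the permutations preserving the levels
  let lev : Fin n → Fin (k + F.c) := fun v => (e.symm v).1
  let Y : Subgroup (Equiv.Perm (Fin n)) :=
    { carrier := {g | lev ∘ g = lev}
      one_mem' := rfl
      mul_mem' := by
        intro g h hg hh
        change lev ∘ (g * h) = lev
        have : lev ∘ (g * h) = (lev ∘ g) ∘ h := rfl
        rw [this, hg, hh]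
      inv_mem' := by
        intro g hg
        change lev ∘ ⇑g⁻¹ = lev
        have h1 : (lev ∘ g) ∘ ⇑g⁻¹ = lev := by
          funext i
          simp
        have hg' : lev ∘ g = lev := hg
        rw [hg'] at h1
        exact h1 }
  have hY : Y ≤ MulAction.stabilizer (Equiv.Perm (Fin n)) S0 := by
    intro g hg
    have hg' : ∀ v, lev (g v) = lev v := fun v => congrFun hg v
    have hg'' : ∀ v, lev (g.symm v) = lev v := by
      intro v
      rw [← hg' (g.symm v), g.apply_symm_apply]
    rw [MulAction.mem_stabilizer_iff]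
    change @Equiv.inducedStructure L _ _ S0 g = S0
    refine Structure.ext (funext fun n => funext fun f => (hrel n).elim f)
      (funext fun n => funext fun R => funext fun x => ?_)
    change ((⟨n, R⟩ : Σ n, L.Relations n) = ⟨F.r + 2, F.R0⟩ ∧
      ∃ a b : U p F.c k, F.E k a b ∧
        ∀ i : Fin n, e.symm (g.symm (x i)) = if (i : ℕ) = 0 then a else b) =
      ((⟨n, R⟩ : Σ n, L.Relations n) = ⟨F.r + 2, F.R0⟩ ∧
      ∃ a b : U p F.c k, F.E k a b ∧ ∀ i : Fin n, e.symm (x i) = if (i : ℕ) = 0 then a else b)
    -- the induced permutation of `U` preserves `E`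
    have hE : ∀ (h : Equiv.Perm (Fin _)), (∀ v, lev (h v) = lev v) → ∀ a b : U p F.c k,
        F.E k (e.symm (h (e a))) (e.symm (h (e b))) ↔ F.E k a b := by
      intro h hh a b
      refine F.inv k ((e.trans h).trans e.symm) (fun v => ?_) a b
      have := hh (e v)
      simp only [lev, Equiv.symm_apply_apply] at this
      exact this
    have key : ∀ (h : Equiv.Perm (Fin _)), (∀ v, lev (h v) = lev v) → ∀ y : Fin n → Fin _,
        (∃ a b : U p F.c k, F.E k a b ∧
          ∀ i : Fin n, e.symm (y i) = if (i : ℕ) = 0 then a else b) →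
        ∃ a b : U p F.c k, F.E k a b ∧
          ∀ i : Fin n, e.symm (h (y i)) = if (i : ℕ) = 0 then a else b := by
      rintro h hh y ⟨a, b, hab, hy⟩
      refine ⟨e.symm (h (e a)), e.symm (h (e b)), (hE h hh a b).mpr hab, fun i => ?_⟩
      have h1 : y i = e (if (i : ℕ) = 0 then a else b) := by
        rw [← hy i, e.apply_symm_apply]
      rw [h1]
      split_ifs <;> rfl
    apply propext
    constructor
    · rintro ⟨h1, h2⟩
      refine ⟨h1, ?_⟩
      have h3 := key g hg' _ h2
      simp only [Equiv.apply_symm_apply] at h3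
      exact h3
    · rintro ⟨h1, h2⟩
      exact ⟨h1, key g.symm hg'' _ h2⟩
  -- cardinalities
  have hcardY : Nat.card Y = ∏ i ∈ Finset.range (k + F.c), (p ^ i).factorial := by
    have h1 : Nat.card Y = Fintype.card {g : Equiv.Perm (Fin n) // lev ∘ g = lev} := by
      rw [← Nat.card_eq_fintype_card]
      rfl
    rw [h1, DomMulAct.stabilizer_card, Finset.prod_range]
    refine Finset.prod_congr rfl fun i _ => ?_
    congr 1
    rw [← Fintype.card_fin (p ^ (i : ℕ))]
    apply Fintype.card_congr
    refine (e.symm.subtypeEquiv (q := fun x : U p F.c k => x.1 = i) fun v => Iff.rfl).trans ?_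
    exact
      { toFun := fun x => (congrArg (fun j : Fin (k + F.c) => Fin (p ^ (j : ℕ))) x.2) ▸ x.1.2
        invFun := fun y => ⟨⟨i, y⟩, rfl⟩
        left_inv := by
          rintro ⟨⟨j, y⟩, hj⟩
          subst hj
          rfl
        right_inv := fun y => rfl }
  have := finite_structure (L := L) (Fin n)
  let _f : Fintype (MulAction.orbit (Equiv.Perm (Fin n)) S0) := Fintype.ofFinite _
  let _f2 : Fintype (MulAction.stabilizer (Equiv.Perm (Fin n)) S0) := Fintype.ofFinite _
  have hos := MulAction.card_orbit_mul_card_stabilizer_eq_card_group (Equiv.Perm (Fin n)) S0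
  rw [Fintype.card_perm, Fintype.card_fin] at hos
  have hdvd := Subgroup.card_dvd_of_le hY
  rw [hcardY] at hdvd
  intro hpdvd
  rw [horb, Nat.card_eq_fintype_card] at hpdvd
  apply not_dvd_factorial p (k + F.c)
  rw [← hn, ← hos]
  apply Nat.mul_dvd_mul hpdvd
  rw [← Nat.card_eq_fintype_card]
  exact hdvd

/-! ### Different index sets give different functions modulo `p` -/

theorem no_embedding_of_lt {k n : ℕ} (S : L.Structure (Fin n)) (h : n < cnt p (k + F.c)) :
    ¬ Nonempty (@FirstOrder.Language.Embedding L (U p F.c k) (Fin n) (strU F k) S) := by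
  rintro ⟨f⟩
  let _i := strU F k
  have h1 := Fintype.card_le_of_injective f f.injective
  rw [card_U, Fintype.card_fin] at h1
  omega

theorem Sp_diff [hfin : Finite (Σ n, L.Relations n)] [hp : Fact p.Prime] {S T : Set ℕ}
    {k : ℕ} (hlow : ∀ j < k, j ∈ S ↔ j ∈ T) (hkS : k ∈ S) (hkT : k ∉ T) :
    Sp (cls F T) (cnt p (k + F.c)) =
      Sp (cls F S) (cnt p (k + F.c)) + Nat.card (copies F k (cnt p (k + F.c))) := by
  classical
  set n := cnt p (k + F.c) with hn
  have := finite_structure (L := L) (Fin n)
  have hmono := cnt_strictMono p hp.out.pos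
  -- the structures of the class for `T`
  have hT : ∀ A : L.Structure (Fin n), cls F T (Fin n) A ↔
      (cls F S (Fin n) A ∨ A ∈ copies F k n) := by
    intro A
    constructor
    · rintro ⟨hf, h⟩
      by_cases hA : A ∈ copies F k n
      · exact Or.inr hA
      · refine Or.inl ⟨hf, fun j hj => ?_⟩
        rcases lt_trichotomy j k with hjk | hjk | hjk
        · exact h j ((hlow j hjk).mp hj)
        · subst hjk
          exact hA
        · exact no_embedding_of_lt F A (hmono (by omega))
    · rintro (⟨hf, h⟩ | ⟨⟨f⟩⟩)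
      · refine ⟨hf, fun j hj => ?_⟩
        rcases lt_trichotomy j k with hjk | hjk | hjk
        · exact h j ((hlow j hjk).mpr hj)
        · subst hjk
          exact absurd hj hkT
        · exact no_embedding_of_lt F A (hmono (by omega))
      · let _i1 := strU F k
        have hbij : Function.Bijective f := by
          rw [Fintype.bijective_iff_injective_and_card]
          exact ⟨f.injective, by rw [card_U, Fintype.card_fin]⟩
        let f' : U p F.c k ≃[L] Fin n :=
          { toEquiv := Equiv.ofBijective f hbij
            map_fun' := fun {m} g x => f.map_fun g x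
            map_rel' := fun {m} R x => f.map_rel R x }
        refine ⟨F.closed.closed _ _ ⟨f'.symm.toEmbedding⟩ (F.mem k), fun j hj => ?_⟩
        rintro ⟨g⟩
        let _i2 := strU F j
        have hjk : j = k := emb_eq F ⟨f'.symm.toEmbedding.comp g⟩
        subst hjk
        exact hkT hj
  have hdisj : ∀ A : L.Structure (Fin n), cls F S (Fin n) A → A ∉ copies F k n :=
    fun A h => h.2 k hkS
  unfold Sp
  have h1 : Nat.card {A : L.Structure (Fin n) // cls F T (Fin n) A} =
      Nat.card {A : L.Structure (Fin n) // cls F S (Fin n) A ∨ A ∈ copies F k n} :=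
    Nat.card_congr (Equiv.subtypeEquivRight hT)
  rw [h1]
  let _f : Fintype (L.Structure (Fin n)) := Fintype.ofFinite _
  rw [Nat.card_eq_fintype_card, Nat.card_eq_fintype_card]
  have h2 : Nat.card (copies F k n) = Fintype.card {A : L.Structure (Fin n) //
      A ∈ copies F k n} := Nat.card_eq_fintype_card
  rw [h2]
  apply Fintype.card_subtype_or_disjoint
  rw [Pi.disjoint_iff]
  intro A
  rw [Prop.disjoint_iff]
  rintro ⟨h3, h4⟩
  exact hdisj A h3 h4

theorem Sp_injective [hfin : Finite (Σ n, L.Relations n)] [hp : Fact p.Prime] :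
    Function.Injective fun (S : Set ℕ) (n : ℕ) => (Sp (cls F S) n : ZMod p) := by
  classical
  intro S T h
  by_contra hne
  have hex : ∃ k, ¬ (k ∈ S ↔ k ∈ T) := by
    by_contra hcon
    push Not at hcon
    exact hne (Set.ext hcon)
  let k := Nat.find hex
  have hk : ¬ (k ∈ S ↔ k ∈ T) := Nat.find_spec hex
  have hlow : ∀ j < k, j ∈ S ↔ j ∈ T := fun j hj => not_not.mp (Nat.find_min hex hj)
  have key : ∀ S T : Set ℕ, (∀ j < k, j ∈ S ↔ j ∈ T) → k ∈ S → k ∉ T →
      (Sp (cls F S) (cnt p (k + F.c)) : ZMod p) ≠ (Sp (cls F T) (cnt p (k + F.c)) : ZMod p) := by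
    intro S T hlow hkS hkT heq
    rw [Sp_diff F hlow hkS hkT] at heq
    push_cast at heq
    rw [left_eq_add, ZMod.natCast_eq_zero_iff] at heq
    exact not_dvd_copies F k heq
  have h1 := congrFun h (cnt p (k + F.c))
  simp only at h1
  by_cases hkS : k ∈ S
  · have hkT : k ∉ T := fun hkT => hk ⟨fun _ => hkT, fun _ => hkS⟩
    exact key S T hlow hkS hkT h1
  · have hkT : k ∈ T := by
      by_contra hkT
      exact hk ⟨fun h => absurd h hkS, fun h => absurd h hkT⟩
    exact key T S (fun j hj => (hlow j hj).symm) hkT hkS h1.symm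

/-- for all but countably many index sets the Specker function is not recurrent modulo `p` -/
theorem countable_bad [hfin : Finite (Σ n, L.Relations n)] [hp : Fact p.Prime] :
    {S : Set ℕ | RecurrentMod p (Sp (cls F S))}.Countable := by
  refine Set.MapsTo.countable_of_injOn
    (f := fun (S : Set ℕ) (n : ℕ) => (Sp (cls F S) n : ZMod p))
    (t := {t : ℕ → ZMod p | ∃ r q : ℕ, ∃ α : Fin q → ZMod p, ∀ n, r ≤ n →
      t (n + q) = ∑ i : Fin q, α i * t (n + i)}) ?_ (Sp_injective F).injOn
    (countable_recurrent p)
  intro S hS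
  exact mem_of_recurrentMod p _ hS

include F in
theorem exists_not_recurrent [hfin : Finite (Σ n, L.Relations n)] [hp : Fact p.Prime] :
    ∃ C : StrClass L, SubstructureClosed C ∧
      (∀ (A : Type) (SA : L.Structure A), C A SA → F.G A SA) ∧ ¬ RecurrentMod p (Sp C) := by
  by_contra hcon
  push Not at hcon
  have h1 : (Set.univ : Set (Set ℕ)).Countable := by
    have h2 : {S : Set ℕ | RecurrentMod p (Sp (cls F S))} = Set.univ := by
      ext S
      simp only [Set.mem_univ, iff_true]
      exact hcon _ (cls_closed F S) fun A SA h => h.1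
    rw [← h2]
    exact countable_bad F
  have h3 : Countable (Set ℕ) := Set.countable_univ_iff.mp h1
  obtain ⟨f, hf⟩ := exists_injective_nat (Set ℕ)
  exact Function.cantor_injective f hf

/-- the family of paths with loops at both ends, in the class of all finite structures -/
def pathFamily (p : ℕ) (hp : 0 < p) {r : ℕ} (R0 : L.Relations (r + 2)) : Family L p where
  c := 2
  r := r
  R0 := R0
  E := fun _ => E
  inv := fun _ h hh a b => E_inv h hh a b
  anti := fun _ _ f hf h => E_injective_eq hp f hf h
  G := fun A _ => Finite A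
  closed := ⟨fun A _ h => h, fun A B _ _ ⟨e⟩ hB => Finite.of_injective e e.injective⟩
  mem := fun k => inferInstanceAs (Finite (U p 2 k))

end Main

end Pool.Agent.X225.Specker
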