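import Mathlib

/-!
# A tree-like algebra with many elementary cyclic subalgebras

Signature: unary operations `τ`, `ε` and `σ_i` (`i ∈ ℕ`).  The ambient algebra `H` consists of all pairs
`(h, s)`, `h ∈ ℤ`, `s : ℕ → ℕ` eventually zero; `τ` raises the height and drops the first entry
of `s`, `σ_i` lowers the height and adds the entry `i + 1` in front, and `ε` is the identity at even
heights and `τ` at odd heights.
-/

namespace Pool.Agent.X225.Tree

open FirstOrder FirstOrder.Language

/-! ### Formulas see only finitely many function symbols -/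

section Support

variable {L : FirstOrder.Language.{0, 0}} {M : Type} [L.Structure M]

/-- `e` commutes with the function symbols in `s` -/
def Commutes (s : Set (Σ n, L.Functions n)) (e : M ≃ M) : Prop :=
  ∀ p ∈ s, ∀ x : Fin p.1 → M, e (Structure.funMap p.2 x) = Structure.funMap p.2 (e ∘ x)

theorem Commutes.mono {s t : Set (Σ n, L.Functions n)} {e : M ≃ M} (h : Commutes t e)
    (hst : s ⊆ t) : Commutes s e := fun p hp => h p (hst hp)

theorem term_support {α : Type} (t : L.Term α) :
    ∃ s : Set (Σ n, L.Functions n), s.Finite ∧ ∀ e : M ≃ M, Commutes s e →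
      ∀ v : α → M, t.realize (e ∘ v) = e (t.realize v) := by
  induction t with
  | var a => exact ⟨∅, Set.finite_empty, fun e _ v => rfl⟩
  | @func l f ts ih =>
    choose s hs hse using ih
    refine ⟨{⟨l, f⟩} ∪ ⋃ i, s i, (Set.finite_singleton _).union (Set.finite_iUnion hs), ?_⟩
    intro e he v
    have h1 : ∀ i, (ts i).realize (e ∘ v) = e ((ts i).realize v) := fun i =>
      hse i e (he.mono ((Set.subset_iUnion s i).trans Set.subset_union_right)) v
    have h2 := he ⟨l, f⟩ (Or.inl rfl) (fun i => (ts i).realize v)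
    change Structure.funMap f (fun i => (ts i).realize (e ∘ v)) = e (Structure.funMap f _)
    rw [h2]
    congr 1
    funext i
    exact h1 i

theorem formula_support [hL : ∀ n, IsEmpty (L.Relations n)] {α : Type} {n : ℕ}
    (φ : L.BoundedFormula α n) :
    ∃ s : Set (Σ n, L.Functions n), s.Finite ∧ ∀ e : M ≃ M, Commutes s e →
      ∀ (v : α → M) (xs : Fin n → M), φ.Realize (e ∘ v) (e ∘ xs) ↔ φ.Realize v xs := by
  induction φ with
  | falsum => exact ⟨∅, Set.finite_empty, fun e _ v xs => Iff.rfl⟩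
  | equal t1 t2 =>
    obtain ⟨s1, hs1, h1⟩ := term_support (M := M) t1
    obtain ⟨s2, hs2, h2⟩ := term_support (M := M) t2
    refine ⟨s1 ∪ s2, hs1.union hs2, fun e he v xs => ?_⟩
    change t1.realize (Sum.elim (e ∘ v) (e ∘ xs)) = t2.realize (Sum.elim (e ∘ v) (e ∘ xs)) ↔
      t1.realize (Sum.elim v xs) = t2.realize (Sum.elim v xs)
    rw [← Sum.comp_elim, h1 e (he.mono Set.subset_union_left),
      h2 e (he.mono Set.subset_union_right), e.apply_eq_iff_eq]
  | rel R ts => exact (hL _).elim R
  | imp f1 f2 ih1 ih2 =>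
    obtain ⟨s1, hs1, h1⟩ := ih1
    obtain ⟨s2, hs2, h2⟩ := ih2
    refine ⟨s1 ∪ s2, hs1.union hs2, fun e he v xs => ?_⟩
    exact imp_congr (h1 e (he.mono Set.subset_union_left) v xs)
      (h2 e (he.mono Set.subset_union_right) v xs)
  | all f ih =>
    obtain ⟨s, hs, h⟩ := ih
    refine ⟨s, hs, fun e he v xs => ?_⟩
    change (∀ a, f.Realize (e ∘ v) (Fin.snoc (e ∘ xs) a)) ↔ ∀ a, f.Realize v (Fin.snoc xs a)
    constructor
    · intro h1 a
      have h2 := h1 (e a)
      rw [← Fin.comp_snoc] at h2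
      exact (h e he v _).mp h2
    · intro h1 a
      have h2 := (h e he v _).mpr (h1 (e.symm a))
      rw [Fin.comp_snoc, e.apply_symm_apply] at h2
      exact h2

end Support

/-! ### The algebra -/

/-- the operation symbols, all unary -/
inductive Op : ℕ → Type
  | tau : Op 1
  | eps : Op 1
  | sig : ℕ → Op 1

/-- the signature -/
def LT : FirstOrder.Language.{0, 0} := ⟨Op, fun _ => Empty⟩

instance (n : ℕ) : IsEmpty (LT.Relations n) := by
  change IsEmpty Empty
  infer_instance

/-- eventually zero sequences -/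
def EvZ : Type := {s : ℕ → ℕ // ∃ N, ∀ j, N ≤ j → s j = 0}

/-- the ambient algebra: heights and eventually zero sequences -/
def H : Type := ℤ × EvZ

theorem H.ext {x y : H} (h1 : x.1 = y.1) (h2 : ∀ j, x.2.1 j = y.2.1 j) : x = y :=
  Prod.ext h1 (Subtype.ext (funext h2))

/-- the operation `τ` -/
def tauF (x : H) : H :=
  (x.1 + 1, ⟨fun j => x.2.1 (j + 1), by
    obtain ⟨N, hN⟩ := x.2.2
    exact ⟨N, fun j hj => hN _ (by omega)⟩⟩)

/-- the operation `σ_i` -/
def sigF (i : ℕ) (x : H) : H :=
  (x.1 - 1, ⟨fun j => match j with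
    | 0 => i + 1
    | k + 1 => x.2.1 k, by
    obtain ⟨N, hN⟩ := x.2.2
    refine ⟨N + 1, fun j hj => ?_⟩
    cases j with
    | zero => omega
    | succ k => exact hN k (by omega)⟩)

/-- the operation `ε` -/
noncomputable def epsF (x : H) : H := if Even x.1 then x else tauF x

noncomputable instance : LT.Structure H where
  funMap := fun {_} f x =>
    match f, x with
    | Op.tau, x => tauF (x 0)
    | Op.eps, x => epsF (x 0)
    | Op.sig i, x => sigF i (x 0)
  RelMap := fun {_} r _ => Empty.elim r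

/-- a bijection of `H` commuting with the operations -/
structure Comm (s : Set (Σ n, LT.Functions n)) (e : H ≃ H) : Prop where
  tau : ∀ x, e (tauF x) = tauF (e x)
  height : ∀ x, Even (e x).1 ↔ Even x.1
  sig : ∀ i, (⟨1, Op.sig i⟩ : Σ n, LT.Functions n) ∈ s → ∀ x, e (sigF i x) = sigF i (e x)

theorem Comm.commutes {s : Set (Σ n, LT.Functions n)} {e : H ≃ H} (h : Comm s e) :
    Commutes s e := by
  rintro ⟨n, f⟩ hf x
  cases f with
  | tau => exact h.tau (x 0)
  | eps =>
    change e (epsF (x 0)) = epsF (e (x 0))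
    unfold epsF
    by_cases h1 : Even (x 0).1
    · rw [if_pos h1, if_pos ((h.height _).mpr h1)]
    · rw [if_neg h1, if_neg (fun h2 => h1 ((h.height _).mp h2)), h.tau]
  | sig i => exact h.sig i hf (x 0)

/-! ### The involutions -/

/-- the condition under which an entry is left unchanged -/
def Keep (n : ℤ) (x : H) (j : ℕ) : Prop := n ≤ x.1 + j ∧ ∀ j', j < j' → x.2.1 j' = 0

open Classical in
/-- the underlying function of the involution -/
noncomputable def swFun (n : ℤ) (J : ℕ) (x : H) (j : ℕ) : ℕ :=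
  if Keep n x j then x.2.1 j else Equiv.swap 0 J (x.2.1 j)

theorem swFun_evz (n : ℤ) (J : ℕ) (x : H) : ∃ N, ∀ j, N ≤ j → swFun n J x j = 0 := by
  obtain ⟨N, hN⟩ := x.2.2
  refine ⟨max N (n - x.1).toNat, fun j hj => ?_⟩
  have h1 : N ≤ j := le_trans (le_max_left _ _) hj
  have h2 : (n - x.1).toNat ≤ j := le_trans (le_max_right _ _) hj
  have hk : Keep n x j := ⟨by omega, fun j' hj' => hN j' (by omega)⟩
  unfold swFun
  rw [if_pos hk]
  exact hN j h1

/-- the involution exchanging the labels `0` and `J` (below the ray above height `n`) -/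
noncomputable def sw (n : ℤ) (J : ℕ) (x : H) : H := (x.1, ⟨swFun n J x, swFun_evz n J x⟩)

theorem keep_above {n : ℤ} {x : H} {j : ℕ} (h : Keep n x j) {j' : ℕ} (hj : j ≤ j') :
    Keep n x j' := by
  refine ⟨?_, fun k hk => h.2 k (by omega)⟩
  have := h.1
  omega

theorem keep_sw (n : ℤ) (J : ℕ) (x : H) (j : ℕ) : Keep n (sw n J x) j ↔ Keep n x j := by
  constructor
  · rintro ⟨h1, h2⟩
    change n ≤ x.1 + j at h1
    refine ⟨h1, ?_⟩
    obtain ⟨N, hN⟩ := x.2.2
    -- downward induction
    have key : ∀ d j', j < j' → N ≤ j' + d → x.2.1 j' = 0 := by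
      intro d
      induction d with
      | zero => exact fun j' _ hj' => hN j' (by omega)
      | succ d ih =>
        intro j' hj hj'
        have hk : Keep n x j' := ⟨by omega, fun k hk => ih k (by omega) (by omega)⟩
        have h3 := h2 j' hj
        change swFun n J x j' = 0 at h3
        unfold swFun at h3
        rw [if_pos hk] at h3
        exact h3
    intro j' hj
    exact key N j' hj (by omega)
  · intro h
    refine ⟨h.1, fun j' hj => ?_⟩
    change swFun n J x j' = 0
    unfold swFun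
    rw [if_pos (keep_above h hj.le)]
    exact h.2 j' hj

theorem sw_invol (n : ℤ) (J : ℕ) : Function.Involutive (sw n J) := by
  intro x
  refine H.ext rfl fun j => ?_
  change swFun n J (sw n J x) j = x.2.1 j
  unfold swFun
  by_cases h : Keep n x j
  · rw [if_pos ((keep_sw n J x j).mpr h)]
    change swFun n J x j = _
    unfold swFun
    rw [if_pos h]
  · rw [if_neg (fun h2 => h ((keep_sw n J x j).mp h2))]
    change Equiv.swap 0 J (swFun n J x j) = _
    unfold swFun
    rw [if_neg h, Equiv.swap_apply_self]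

/-- the involution as a permutation -/
noncomputable def swE (n : ℤ) (J : ℕ) : H ≃ H := (sw_invol n J).toPerm

theorem keep_tau (n : ℤ) (x : H) (j : ℕ) : Keep n (tauF x) j ↔ Keep n x (j + 1) := by
  unfold Keep tauF
  constructor
  · rintro ⟨h1, h2⟩
    refine ⟨?_, fun j' hj' => ?_⟩
    · simp only at h1
      push_cast
      omega
    · have := h2 (j' - 1) (by omega)
      simp only at this
      rwa [Nat.sub_add_cancel (by omega)] at this
  · rintro ⟨h1, h2⟩
    refine ⟨?_, fun j' hj' => h2 (j' + 1) (by omega)⟩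
    simp only
    push_cast at h1
    omega

theorem keep_sig (n : ℤ) (i : ℕ) (x : H) (j : ℕ) : Keep n (sigF i x) (j + 1) ↔ Keep n x j := by
  unfold Keep sigF
  constructor
  · rintro ⟨h1, h2⟩
    refine ⟨?_, fun j' hj' => h2 (j' + 1) (by omega)⟩
    simp only at h1
    push_cast at h1
    omega
  · rintro ⟨h1, h2⟩
    refine ⟨?_, fun j' hj' => ?_⟩
    · simp only
      push_cast
      omega
    · cases j' with
      | zero => omega
      | succ k => exact h2 k (by omega)

theorem swE_comm (n : ℤ) (m : ℕ) (s : Set (Σ n, LT.Functions n))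
    (hs : (⟨1, Op.sig m⟩ : Σ n, LT.Functions n) ∉ s) : Comm s (swE n (m + 1)) where
  tau := by
    intro x
    refine H.ext rfl fun j => ?_
    change swFun n (m + 1) (tauF x) j = swFun n (m + 1) x (j + 1)
    unfold swFun
    by_cases h : Keep n x (j + 1)
    · rw [if_pos h, if_pos ((keep_tau n x j).mpr h)]
      rfl
    · rw [if_neg h, if_neg (fun h2 => h ((keep_tau n x j).mp h2))]
      rfl
  height := fun x => Iff.rfl
  sig := by
    intro i hi x
    have him : i ≠ m := by
      rintro rfl
      exact hs hi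
    refine H.ext rfl fun j => ?_
    change swFun n (m + 1) (sigF i x) j = (sigF i (sw n (m + 1) x)).2.1 j
    cases j with
    | zero =>
      change _ = i + 1
      unfold swFun
      have h1 : (sigF i x).2.1 0 = i + 1 := rfl
      rw [h1]
      split_ifs
      · rfl
      · exact Equiv.swap_apply_of_ne_of_ne (by omega) (by omega)
    | succ k =>
      change _ = swFun n (m + 1) x k
      unfold swFun
      by_cases h : Keep n x k
      · rw [if_pos h, if_pos ((keep_sig n i x k).mpr h)]
        rfl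
      · rw [if_neg h, if_neg (fun h2 => h ((keep_sig n i x k).mp h2))]
        rfl

/-! ### The shift -/

/-- the shift by `d` -/
def shift (d : ℤ) : H ≃ H where
  toFun := fun x => (x.1 + d, x.2)
  invFun := fun x => (x.1 - d, x.2)
  left_inv := fun x => by
    refine H.ext ?_ fun _ => rfl
    change x.1 + d - d = x.1
    omega
  right_inv := fun x => by
    refine H.ext ?_ fun _ => rfl
    change x.1 - d + d = x.1
    omega

theorem shift_comm (d : ℤ) (hd : Even d) (s : Set (Σ n, LT.Functions n)) : Comm s (shift d) where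
  tau := by
    intro x
    refine H.ext ?_ fun _ => rfl
    change x.1 + 1 + d = x.1 + d + 1
    omega
  height := by
    intro x
    change Even (x.1 + d) ↔ _
    rw [Int.even_add]
    simp [hd]
  sig := by
    intro i _ x
    refine H.ext ?_ fun _ => rfl
    change x.1 - 1 + d = x.1 + d - 1
    omega

/-! ### The subalgebras -/

/-- the sequence is nonzero exactly before `k` -/
def ZeroFrom (x : H) (k : ℕ) : Prop := ∀ j, x.2.1 j = 0 ↔ k ≤ j

theorem ZeroFrom.unique {x : H} {k l : ℕ} (h1 : ZeroFrom x k) (h2 : ZeroFrom x l) : k = l := by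
  have a := (h1 l).mp ((h2 l).mpr le_rfl)
  have b := (h2 k).mp ((h1 k).mpr le_rfl)
  omega

theorem ZeroFrom.sig {x : H} {k : ℕ} (h : ZeroFrom x k) (i : ℕ) :
    ZeroFrom (sigF i x) (k + 1) := by
  intro j
  cases j with
  | zero =>
    change i + 1 = 0 ↔ _
    omega
  | succ l =>
    change x.2.1 l = 0 ↔ _
    rw [h l]
    omega

theorem ZeroFrom.tau {x : H} {k : ℕ} (h : ZeroFrom x k) : ZeroFrom (tauF x) (k - 1) := by
  intro j
  change x.2.1 (j + 1) = 0 ↔ _
  rw [h (j + 1)]
  omega

/-- the subalgebra `T n`, generated by the element `(n, 0)` -/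
def T (n : ℤ) : LT.Substructure H where
  carrier := {x | ∃ k : ℕ, n ≤ x.1 + k ∧ ZeroFrom x k}
  fun_mem := by
    intro l f x hx
    have htau : ∀ y : H, (∃ k : ℕ, n ≤ y.1 + k ∧ ZeroFrom y k) →
        ∃ k : ℕ, n ≤ (tauF y).1 + k ∧ ZeroFrom (tauF y) k := by
      rintro y ⟨k, hk, hz⟩
      refine ⟨k - 1, ?_, hz.tau⟩
      change n ≤ y.1 + 1 + ((k - 1 : ℕ) : ℤ)
      omega
    cases f with
    | tau => exact htau _ (hx 0)
    | eps =>
      change ∃ k : ℕ, n ≤ (epsF (x 0)).1 + k ∧ ZeroFrom (epsF (x 0)) k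
      unfold epsF
      split_ifs
      · exact hx 0
      · exact htau _ (hx 0)
    | sig i =>
      obtain ⟨k, hk, hz⟩ := hx 0
      refine ⟨k + 1, ?_, hz.sig i⟩
      change n ≤ (x 0).1 - 1 + ((k + 1 : ℕ) : ℤ)
      push_cast
      omega

theorem mem_T {n : ℤ} {x : H} : x ∈ T n ↔ ∃ k : ℕ, n ≤ x.1 + k ∧ ZeroFrom x k := Iff.rfl

/-- the union of all `T n` -/
def U : LT.Substructure H where
  carrier := {x | ∃ k : ℕ, ZeroFrom x k}
  fun_mem := by
    intro l f x hx
    have htau : ∀ y : H, (∃ k : ℕ, ZeroFrom y k) → ∃ k : ℕ, ZeroFrom (tauF y) k := by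
      rintro y ⟨k, hz⟩
      exact ⟨k - 1, hz.tau⟩
    cases f with
    | tau => exact htau _ (hx 0)
    | eps =>
      change ∃ k : ℕ, ZeroFrom (epsF (x 0)) k
      unfold epsF
      split_ifs
      · exact hx 0
      · exact htau _ (hx 0)
    | sig i =>
      obtain ⟨k, hz⟩ := hx 0
      exact ⟨k + 1, hz.sig i⟩

theorem mem_U {x : H} : x ∈ U ↔ ∃ k : ℕ, ZeroFrom x k := Iff.rfl

theorem T_le_U (n : ℤ) : T n ≤ U := fun _ ⟨k, _, hz⟩ => ⟨k, hz⟩

theorem T_anti {m n : ℤ} (h : m ≤ n) : T n ≤ T m := fun _ ⟨k, hk, hz⟩ => ⟨k, h.trans hk, hz⟩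

/-- the generator `(n, 0)` -/
def b (n : ℤ) : H := (n, ⟨fun _ => 0, 0, fun _ _ => rfl⟩)

theorem zeroFrom_b (n : ℤ) : ZeroFrom (b n) 0 := fun j => by simp [b]

theorem b_mem_T {m n : ℤ} : b m ∈ T n ↔ n ≤ m := by
  constructor
  · rintro ⟨k, hk, hz⟩
    have := hz.unique (zeroFrom_b m)
    subst this
    change n ≤ m + ((0 : ℕ) : ℤ) at hk
    simpa using hk
  · intro h
    refine ⟨0, ?_, zeroFrom_b m⟩
    change n ≤ m + ((0 : ℕ) : ℤ)
    simpa using h

theorem tau_b (n : ℤ) : tauF (b n) = b (n + 1) := rfl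

theorem tau_mem {S : LT.Substructure H} {x : H} (h : x ∈ S) : tauF x ∈ S :=
  S.fun_mem (Op.tau : LT.Functions 1) (fun _ => x) fun _ => h

theorem sig_mem {S : LT.Substructure H} {x : H} (h : x ∈ S) (i : ℕ) : sigF i x ∈ S :=
  S.fun_mem (Op.sig i : LT.Functions 1) (fun _ => x) fun _ => h

theorem eq_sig_tau {x : H} (h : x.2.1 0 ≠ 0) : sigF (x.2.1 0 - 1) (tauF x) = x := by
  refine H.ext ?_ fun j => ?_
  · change x.1 + 1 - 1 = x.1
    omega
  · cases j with
    | zero =>
      change x.2.1 0 - 1 + 1 = x.2.1 0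
      omega
    | succ k => rfl

theorem T_eq_closure (n : ℤ) : T n = Substructure.closure LT {b n} := by
  apply le_antisymm
  · intro x hx
    obtain ⟨k, hk, hz⟩ := hx
    have hray : ∀ m : ℤ, n ≤ m → b m ∈ Substructure.closure LT {b n} := by
      intro m hm
      induction m, hm using Int.leInduction with
      | base => exact Substructure.subset_closure rfl
      | succ m _ ih =>
        rw [← tau_b]
        exact tau_mem ih
    induction k generalizing x with
    | zero =>
      have : x = b x.1 := by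
        refine H.ext rfl fun j => ?_
        exact (hz j).mpr (Nat.zero_le j)
      rw [this]
      apply hray
      simpa using hk
    | succ k ih =>
      have h0 : x.2.1 0 ≠ 0 := fun h => by
        have := (hz 0).mp h
        omega
      rw [← eq_sig_tau h0]
      apply sig_mem
      apply ih
      · change n ≤ x.1 + 1 + (k : ℤ)
        push_cast at hk
        omega
      · exact hz.tau
  · rw [Substructure.closure_le]
    intro x hx
    rw [Set.mem_singleton_iff.mp hx]
    exact b_mem_T.mpr le_rfl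

/-- `T n` is finitely generated, as a structure -/
theorem T_fg (n : ℤ) : Structure.FG LT (T n) := by
  rw [← Substructure.fg_iff_structure_fg, T_eq_closure]
  exact Substructure.fg_closure_singleton _

theorem U_not_fg : ¬ Structure.FG LT U := by
  rw [← Substructure.fg_iff_structure_fg, Substructure.fg_def]
  rintro ⟨S, hS, hcl⟩
  have h1 : ∀ x ∈ S, ∃ m : ℤ, x ∈ T m := by
    intro x hx
    have : x ∈ U := by
      rw [← hcl]
      exact Substructure.subset_closure hx
    obtain ⟨k, hz⟩ := this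
    exact ⟨x.1 + k, k, le_rfl, hz⟩
  choose! m hm using h1
  obtain ⟨n, hn⟩ : ∃ n : ℤ, ∀ x ∈ S, n ≤ m x := by
    obtain ⟨n, hn⟩ := (hS.image m).bddBelow
    exact ⟨n, fun x hx => hn (Set.mem_image_of_mem m hx)⟩
  have h2 : Substructure.closure LT S ≤ T n := by
    rw [Substructure.closure_le]
    intro x hx
    exact T_anti (hn x hx) (hm x hx)
  rw [hcl] at h2
  have h3 : b (n - 1) ∈ U := ⟨0, zeroFrom_b _⟩
  have h4 := b_mem_T.mp (h2 h3)
  omega

/-! ### Elementarity -/

theorem exists_bound (x : H) : ∃ B, ∀ j, x.2.1 j ≤ B := by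
  obtain ⟨N, hN⟩ := x.2.2
  refine ⟨(Finset.range N).sup x.2.1, fun j => ?_⟩
  by_cases hj : j < N
  · exact Finset.le_sup (f := x.2.1) (Finset.mem_range.mpr hj)
  · rw [hN j (by omega)]
    exact Nat.zero_le _

theorem sw_fix {n : ℤ} {J : ℕ} {x : H} (hx : x ∈ T n) (hJ : ∀ j, x.2.1 j < J) :
    sw n J x = x := by
  obtain ⟨k, hk, hz⟩ := hx
  refine H.ext rfl fun j => ?_
  change swFun n J x j = _
  unfold swFun
  split_ifs with h
  · rfl
  · have hj : j < k := by
      by_contra hcon
      apply h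
      refine ⟨by omega, fun j' hj' => (hz j').mpr (by omega)⟩
    refine Equiv.swap_apply_of_ne_of_ne ?_ (hJ j).ne
    intro h0
    have := (hz j).mp h0
    omega

theorem sw_mem_T {n : ℤ} {J : ℕ} {x : H} (hJ : ∀ j, x.2.1 j < J) : sw n J x ∈ T n := by
  classical
  have hJ0 : J ≠ 0 := by
    have := hJ 0
    omega
  have hex : ∃ k : ℕ, n ≤ x.1 + k ∧ ∀ j, k ≤ j → x.2.1 j = 0 := by
    obtain ⟨N, hN⟩ := x.2.2
    refine ⟨max N (n - x.1).toNat, ?_, fun j hj => hN j (le_trans (le_max_left _ _) hj)⟩
    have : (n - x.1).toNat ≤ max N (n - x.1).toNat := le_max_right _ _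
    omega
  refine ⟨Nat.find hex, (Nat.find_spec hex).1, fun j => ?_⟩
  obtain ⟨h1, h2⟩ := Nat.find_spec hex
  change swFun n J x j = 0 ↔ _
  unfold swFun
  constructor
  · intro h
    split_ifs at h with hkeep
    · refine Nat.find_min' hex ⟨hkeep.1, fun j' hj' => ?_⟩
      rcases Nat.lt_or_eq_of_le hj' with h3 | h3
      · exact hkeep.2 j' h3
      · rw [← h3]
        exact h
    · exfalso
      have h3 : x.2.1 j = J := by
        have h4 := congrArg (Equiv.swap 0 J) h
        rw [Equiv.swap_apply_self, Equiv.swap_apply_left] at h4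
        exact h4
      have := hJ j
      omega
  · intro h
    rw [if_pos]
    · exact h2 j h
    · exact ⟨by omega, fun j' hj' => h2 j' (by omega)⟩

theorem isElementary_of (S : LT.Substructure H)
    (hS : ∀ (l : ℕ) (x : Fin l → S), ∃ n : ℤ, T n ≤ S ∧ ∀ i, (x i : H) ∈ T n) :
    S.IsElementary := by
  apply Substructure.isElementary_of_exists
  intro l φ x a hφ
  obtain ⟨n, hn, hx⟩ := hS l x
  obtain ⟨s, hs, hinv⟩ := formula_support (M := H) φ
  -- a bound for all labels
  have hb : ∀ i, ∃ B, ∀ j, (x i : H).2.1 j ≤ B := fun i => exists_bound _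
  choose B hB using hb
  obtain ⟨B', hB'⟩ := exists_bound a
  -- a symbol that does not occur
  have hinf : {m : ℕ | (⟨1, Op.sig m⟩ : Σ n, LT.Functions n) ∈ s}.Finite := by
    refine Set.Finite.preimage ?_ hs
    intro p _ q _ hpq
    injection hpq with _ h2
    exact Op.sig.inj h2
  have hfin2 : ({m : ℕ | (⟨1, Op.sig m⟩ : Σ n, LT.Functions n) ∈ s} ∪
      {m | m ≤ max B' (Finset.univ.sup B)}).Finite := hinf.union (Set.finite_le_nat _)
  obtain ⟨m, hm⟩ := hfin2.exists_notMem
  rw [Set.mem_union, not_or] at hm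
  obtain ⟨hm1, hm2⟩ := hm
  have hm2' : max B' (Finset.univ.sup B) < m := not_le.mp hm2
  have hmB' : B' < m := lt_of_le_of_lt (le_max_left _ _) hm2'
  have hmB : ∀ i, B i < m := fun i => lt_of_le_of_lt
    (le_trans (Finset.le_sup (Finset.mem_univ i)) (le_max_right _ _)) hm2'
  refine ⟨⟨sw n (m + 1) a, hn (sw_mem_T fun j => ?_)⟩, ?_⟩
  · have := hB' j
    omega
  · have h1 := (hinv (swE n (m + 1)) (swE_comm n m s hm1).commutes default
      (Fin.snoc ((↑) ∘ x) a)).mpr hφ
    have h2 : ⇑(swE n (m + 1)) ∘ (Fin.snoc ((↑) ∘ x) a : Fin (l + 1) → H) =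
        Fin.snoc ((↑) ∘ x) (sw n (m + 1) a) := by
      rw [Fin.comp_snoc]
      congr 1
      funext i
      change sw n (m + 1) (x i : H) = x i
      refine sw_fix (hx i) fun j => ?_
      have := hB i j
      have := hmB i
      omega
    have h0 : (⇑(swE n (m + 1)) ∘ (default : Empty → H)) = default := funext fun z => z.elim
    rw [h2, h0] at h1
    exact h1

theorem T_elementary (n : ℤ) : (T n).IsElementary :=
  isElementary_of (T n) fun _ x => ⟨n, le_rfl, fun i => (x i).2⟩

theorem exists_T {l : ℕ} (x : Fin l → U) : ∃ n : ℤ, ∀ i, (x i : H) ∈ T n := by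
  have h1 : ∀ i, ∃ k : ℕ, ZeroFrom (x i : H) k := fun i => (x i).2
  choose k hk using h1
  obtain ⟨n, hn⟩ := (Set.finite_range fun i => (x i : H).1 + (k i : ℤ)).bddBelow
  exact ⟨n, fun i => ⟨k i, hn (Set.mem_range_self i), hk i⟩⟩

theorem U_elementary : U.IsElementary :=
  isElementary_of U fun _ x => by
    obtain ⟨n, hn⟩ := exists_T x
    exact ⟨n, T_le_U n, hn⟩

/-! ### Types -/

/-- the two tuples have the same type -/
def SameType {L : FirstOrder.Language.{0, 0}} {M N : Type} [L.Structure M] [L.Structure N] {n : ℕ}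
    (a : Fin n → M) (b : Fin n → N) : Prop :=
  ∀ φ : L.Formula (Fin n), φ.Realize a ↔ φ.Realize b

/-- two algebras are isotypic if they realize the same `n`-types, for every `n` -/
def Isotypic (L : FirstOrder.Language.{0, 0}) (M N : Type) [L.Structure M] [L.Structure N] :
    Prop :=
  (∀ (n : ℕ) (a : Fin n → M), ∃ b : Fin n → N, SameType (L := L) a b) ∧
    ∀ (n : ℕ) (b : Fin n → N), ∃ a : Fin n → M, SameType (L := L) b a

theorem realize_comm {l : ℕ} (φ : LT.Formula (Fin l)) (e : H ≃ H)
    (he : ∀ s, Comm s e) (a : Fin l → H) : φ.Realize (e ∘ a) ↔ φ.Realize a := by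
  obtain ⟨s, -, hinv⟩ := formula_support (M := H) φ
  have h := hinv e (he s).commutes a default
  have h2 : (e ∘ default : Fin 0 → H) = default := Subsingleton.elim _ _
  rw [h2] at h
  exact h

theorem sameType_of_elementary {S S' : LT.Substructure H} (hS : S.IsElementary)
    (hS' : S'.IsElementary) {l : ℕ} (a : Fin l → S) (a' : Fin l → S')
    (e : H ≃ H) (he : ∀ s, Comm s e) (h : ∀ i, e (a i : H) = a' i) :
    SameType (L := LT) a a' := by
  intro φ
  rw [← hS φ a, ← hS' φ a', ← realize_comm φ e he]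
  have : ⇑e ∘ ((↑) ∘ a) = ((↑) ∘ a' : Fin l → H) := funext h
  rw [this]

theorem shift_mem_T {n : ℤ} {x : H} (h : x ∈ T n) (d : ℤ) : shift d x ∈ T (n + d) := by
  obtain ⟨k, hk, hz⟩ := h
  refine ⟨k, ?_, hz⟩
  change n + d ≤ x.1 + d + k
  omega

theorem isotypic_T_U : Isotypic LT (T 0) U := by
  constructor
  · intro n a
    refine ⟨fun i => ⟨a i, T_le_U 0 (a i).2⟩, ?_⟩
    exact sameType_of_elementary (T_elementary 0) U_elementary _ _ (shift 0)
      (fun s => shift_comm 0 (by simp) s) fun i => H.ext (by change _ + (0 : ℤ) = _; simp)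
        fun _ => rfl
  · intro n a
    obtain ⟨m, hm⟩ := exists_T a
    let d : ℤ := 2 * |m|
    have hmem : ∀ i, shift d (a i : H) ∈ T 0 := fun i =>
      T_anti (by simp only [d]; have := neg_abs_le m; have := abs_nonneg m; omega) (shift_mem_T (hm i) d)
    refine ⟨fun i => ⟨shift d (a i), hmem i⟩, ?_⟩
    exact sameType_of_elementary U_elementary (T_elementary 0) _ _ (shift d)
      (fun s => shift_comm d (even_two_mul _) s) fun i => rfl

theorem isotypic_T_T : Isotypic LT (T 0) (T 1) := by
  constructor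
  · intro n a
    have hmem : ∀ i, shift 2 (a i : H) ∈ T 1 := fun i =>
      T_anti (by norm_num) (shift_mem_T (a i).2 2)
    refine ⟨fun i => ⟨shift 2 (a i), hmem i⟩, ?_⟩
    exact sameType_of_elementary (T_elementary 0) (T_elementary 1) _ _ (shift 2)
      (fun s => shift_comm 2 (by norm_num) s) fun i => rfl
  · intro n a
    refine ⟨fun i => ⟨a i, T_anti (by norm_num) (a i).2⟩, ?_⟩
    exact sameType_of_elementary (T_elementary 1) (T_elementary 0) _ _ (shift 0)
      (fun s => shift_comm 0 (by simp) s) fun i => H.ext (by change _ + (0 : ℤ) = _; simp)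
        fun _ => rfl

/-! ### Non-isomorphism -/

theorem not_iso : ¬ Nonempty ((T 0) ≃[LT] (T 1)) := by
  rintro ⟨e⟩
  have htau : ∀ x : T 0, ((e ⟨tauF x, tau_mem x.2⟩ : T 1) : H) = tauF (e x) := by
    intro x
    have h := e.map_fun (Op.tau : LT.Functions 1) (fun _ => x)
    exact congrArg Subtype.val h
  have hsig : ∀ (i : ℕ) (x : T 0), ((e ⟨sigF i x, sig_mem x.2 i⟩ : T 1) : H) = sigF i (e x) := by
    intro i x
    have h := e.map_fun (Op.sig i : LT.Functions 1) (fun _ => x)
    exact congrArg Subtype.val h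
  have heps : ∀ (x : T 0), (epsF x : H) = x → epsF (e x : H) = e x := by
    intro x hx
    have h := e.map_fun (Op.eps : LT.Functions 1) (fun _ => x)
    have h1 : Structure.funMap (L := LT) (M := T 0) (Op.eps : LT.Functions 1)
        (fun _ : Fin 1 => x) = x := Subtype.ext hx
    rw [h1] at h
    exact (congrArg Subtype.val h).symm
  -- an element not in the range of the `σ_i` is mapped to such an element, and conversely
  have hns : ∀ x : T 0, (x : H).2.1 0 = 0 ↔ (e x : H).2.1 0 = 0 := by
    intro x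
    constructor
    · intro h
      by_contra h2
      have h3 := eq_sig_tau h2
      let y : T 1 := ⟨tauF (e x), tau_mem (e x).2⟩
      have h4 := hsig ((e x : H).2.1 0 - 1) (e.symm y)
      rw [e.apply_symm_apply] at h4
      have h5 : e ⟨sigF ((e x : H).2.1 0 - 1) (e.symm y), sig_mem (e.symm y).2 _⟩ = e x :=
        Subtype.ext (h4.trans h3)
      have h6 := congrArg Subtype.val (e.injective h5)
      have h7 : (sigF ((e x : H).2.1 0 - 1) (e.symm y)).2.1 0 = 0 :=
        (congrArg (fun z : H => z.2.1 0) h6).trans h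
      exact absurd h7 (Nat.succ_ne_zero _)
    · intro h
      by_contra h2
      have h3 := eq_sig_tau h2
      have h4 := hsig ((x : H).2.1 0 - 1) ⟨tauF x, tau_mem x.2⟩
      have h5 : e ⟨sigF ((x : H).2.1 0 - 1) (tauF x), sig_mem (tau_mem x.2) _⟩ = e x :=
        congrArg e (Subtype.ext h3)
      rw [h5] at h4
      rw [h4] at h
      exact absurd h (Nat.succ_ne_zero _)
  let b0 : T 0 := ⟨b 0, b_mem_T.mpr le_rfl⟩
  -- the image of `b0`
  have h1 : (e b0 : H).2.1 0 = 0 := (hns b0).mp rfl
  obtain ⟨k, hk, hz⟩ := (e b0).2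
  have hk0 : k = 0 := by
    have := (hz 0).mp h1
    omega
  subst hk0
  have h2 : (e b0 : H) = b (e b0 : H).1 := H.ext rfl fun j => (hz j).mpr (Nat.zero_le j)
  have h3 : (1 : ℤ) ≤ (e b0 : H).1 := by simpa using hk
  -- the height of the image is even
  have h4 : epsF (b 0) = b 0 := by
    unfold epsF
    rw [if_pos]
    exact Even.zero
  have h5 : epsF (e b0 : H) = e b0 := heps b0 h4
  have h6 : Even (e b0 : H).1 := by
    by_contra hodd
    unfold epsF at h5
    rw [if_neg hodd] at h5
    have h7 := congrArg Prod.fst h5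
    change (e b0 : H).1 + 1 = (e b0 : H).1 at h7
    omega
  have h8 : (2 : ℤ) ≤ (e b0 : H).1 := by
    obtain ⟨r, hr⟩ := h6
    omega
  -- the predecessor on the ray
  let y : T 1 := ⟨b ((e b0 : H).1 - 1), b_mem_T.mpr (by omega)⟩
  have h9 : tauF (y : H) = e b0 := by
    change tauF (b ((e b0 : H).1 - 1)) = _
    rw [tau_b, sub_add_cancel, ← h2]
  have h10 := htau (e.symm y)
  rw [e.apply_symm_apply, h9] at h10
  have h11 : tauF (e.symm y : H) = b 0 := congrArg Subtype.val (e.injective (Subtype.ext h10))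
  have h12 : (e.symm y : H).2.1 0 = 0 := by
    rw [hns, e.apply_symm_apply]
    rfl
  obtain ⟨k, hk, hz⟩ := (e.symm y).2
  have hk0 : k = 0 := by
    have := (hz 0).mp h12
    omega
  subst hk0
  have h13 := congrArg Prod.fst h11
  change (e.symm y : H).1 + 1 = 0 at h13
  have h14 : (0 : ℤ) ≤ (e.symm y : H).1 := by simpa using hk
  omega

end Pool.Agent.X225.Tree
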